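import Pool.Agent.H2.NF.S3
import Pool.Agent.H49.TOW.EXC

/-!
# NF, row CMP2: the completion at a prime (also above `2`)
-/

set_option autoImplicit false

namespace Pool.NF

open Polynomial Matrix Pool.HYP Pool.TOW Pool.AVS Pool.T1 IsDedekindDomain NumberField

theorem valuation_le_one_iff_RP {R : Type} [CommRing R] [IsDedekindDomain R] {K : Type} [Field K]
    [Algebra R K] [IsFractionRing R K] (P : HeightOneSpectrum R) (x : K) :
    P.valuation K x ≤ 1 ↔ x ∈ RP K P := by
  constructor
  · intro h
    obtain ⟨n, d, h⟩ := HeightOneSpectrum.exists_primeCompl_mul_eq_of_integer P x h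
    exact ⟨d, d.2, n, by rw [mul_comm]; exact h⟩
  · rintro ⟨m, hm, a, h⟩
    have h1 : P.valuation K (algebraMap R K m) = 1 :=
      (HeightOneSpectrum.valuation_eq_one_iff_notMem P).2 hm
    have h2 := congrArg (P.valuation K) h
    rw [map_mul, h1, one_mul] at h2
    rw [h2]
    exact P.valuation_le_one a

theorem cmp2 : CMP2Stmt := by
  intro K _ _ P
  have hfin : Finite (𝓞 K ⧸ P.asIdeal) := Ideal.finiteQuotientOfFreeOfNeBot _ P.ne_bot
  have hcpl := Pool.TOW.Exc49.cpl_of K (𝓞 K) P hfin
  refine ⟨P.adicCompletion K, inferInstance, P.adicCompletionIntegers K,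
    algebraMap K (P.adicCompletion K), hcpl, fun x => ?_⟩
  change Valued.v (algebraMap K (P.adicCompletion K) x) ≤ 1 ↔ _
  rw [show Valued.v (algebraMap K (P.adicCompletion K) x) = P.valuation K x from
    HeightOneSpectrum.valuedAdicCompletion_eq_valuation' (v := P) x]
  exact valuation_le_one_iff_RP P x

end Pool.NF
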