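import Pool.Agent.H33.NF.K
import Pool.Agent.H96.T1.KEYK

/-!
# NF, row KEYN: the pair of matrices of a bad class
-/

set_option autoImplicit false

namespace Pool.NF

open Polynomial Matrix NumberField IsDedekindDomain Pool.HYP Pool.TOW Pool.AVS Pool.T1
  Pool.T1.H96K

theorem Bx_mono {K : Type} [Field K] [NumberField K] {ρ ρ' : ℝ} (h : ρ ≤ ρ') {a : 𝓞 K}
    (ha : a ∈ Bx K ρ) : a ∈ Bx K ρ' := fun σ => (ha σ).trans h

theorem keyn (hLATT : LATTKStmt) (hINF : INFNStmt) (hMKN : MKNStmt) (hEBN : EBNStmt)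
    (hNRM : NRMStmt) : KEYNStmt := by
  intro K _ _ hIRR
  obtain ⟨C0, hC0⟩ := hMKN K 3 4 (by norm_num)
  refine ⟨max (max (C0 + 3) 18) ((6 * (9 * 1) ^ 3 * Real.exp (2 * (C0 + 3))) ^ dg K), ?_⟩
  intro B hB D Y hOk hY hT f hf hbad
  have hB1 : C0 + 3 ≤ B := le_trans (le_trans (le_max_left _ _) (le_max_left _ _)) hB
  have hB2 : 18 ≤ B := le_trans (le_trans (le_max_right _ _) (le_max_left _ _)) hB
  have hB3 : (6 * (9 * 1) ^ 3 * Real.exp (2 * (C0 + 3))) ^ dg K ≤ B :=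
    le_trans (le_max_right _ _) hB
  have hinj : Function.Injective (algebraMap (𝓞 K) K) := IsFractionRing.injective (𝓞 K) K
  have hm : f.Monic := hf.1
  have hdeg : f.natDegree = 3 := hf.2.1
  obtain ⟨α, hcop, hN, hns, hUS, hTR⟩ := hbad
  obtain ⟨Λ, hΛE, hΛd, hΛ1, hΛT⟩ := hLATT (𝓞 K) K 3 f α D.T hm hdeg hcop hUS hTR
  have hirr := hIRR D Y hOk f hf
  obtain ⟨gi, hgc, hgi⟩ := hINF K f Y α hY hm hdeg hf.2.2.1 hirr hcop
  obtain ⟨E, d, hE, hEΛ, hd, hdC, hEO⟩ := hC0 Λ (gr 0 3 (fk K f) α) gi (gr_symm _ _)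
    hΛE hΛd hgc (fun σ => ⟨(hgi σ).1, (hgi σ).2.2.1⟩)
  -- the matrices
  have hGex : ∀ i j : Fin 3, ∃ a : 𝓞 K,
      algebraMap (𝓞 K) K a = (Eᵀ * gr 0 3 (fk K f) α * E) i j := fun i j => by
    rw [entry]
    exact (hΛd _).1 (hEΛ j) _ (hEΛ i)
  have hSex : ∀ i j : Fin 3, ∃ a : 𝓞 K,
      algebraMap (𝓞 K) K a = (Eᵀ * gr 1 3 (fk K f) α * E) i j := fun i j => by
    rw [entry]
    exact hΛ1 _ (hEΛ i) _ (hEΛ j)
  choose G hG using hGex
  choose S hS using hSex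
  obtain ⟨G', hG'⟩ : ∃ G' : Matrix (Fin 3) (Fin 3) (𝓞 K), G' = Matrix.of G := ⟨_, rfl⟩
  obtain ⟨S', hS'⟩ : ∃ S' : Matrix (Fin 3) (Fin 3) (𝓞 K), S' = Matrix.of S := ⟨_, rfl⟩
  have hMG : Eᵀ * gr 0 3 (fk K f) α * E = G'.map (algebraMap (𝓞 K) K) := by
    refine Matrix.ext fun i j => ?_
    rw [hG', Matrix.map_apply]
    exact (hG i j).symm
  have hMS : Eᵀ * gr 1 3 (fk K f) α * E = S'.map (algebraMap (𝓞 K) K) := by
    refine Matrix.ext fun i j => ?_
    rw [hS', Matrix.map_apply]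
    exact (hS i j).symm
  have hGt : G'ᵀ = G' := by
    have h1 : (G'ᵀ).map (algebraMap (𝓞 K) K) = G'.map (algebraMap (𝓞 K) K) := by
      rw [Matrix.transpose_map, ← hMG, Matrix.transpose_mul, Matrix.transpose_mul,
        Matrix.transpose_transpose, gr_symm, Matrix.mul_assoc]
    refine Matrix.ext fun i j => hinj ?_
    exact congrFun (congrFun h1 i) j
  have hSt : S'ᵀ = S' := by
    have h1 : (S'ᵀ).map (algebraMap (𝓞 K) K) = S'.map (algebraMap (𝓞 K) K) := by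
      rw [Matrix.transpose_map, ← hMS, Matrix.transpose_mul, Matrix.transpose_mul,
        Matrix.transpose_transpose, gr_symm, Matrix.mul_assoc]
    refine Matrix.ext fun i j => hinj ?_
    exact congrFun (congrFun h1 i) j
  have hdet : ∀ A : Matrix (Fin 3) (Fin 3) (𝓞 K),
      (A.map (algebraMap (𝓞 K) K)).det = algebraMap (𝓞 K) K A.det := fun A => by
    rw [RingHom.map_det]
    rfl
  -- the sizes
  obtain ⟨e, he⟩ : ∃ e : Fin 3 → ℤ, e = fun i => ⌈d i⌉ := ⟨_, rfl⟩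
  have hde : ∀ i, d i ≤ e i := fun i => by rw [he]; exact Int.le_ceil _
  have hed : ∀ i, (e i : ℝ) ≤ d i + 1 := fun i => by rw [he]; exact (Int.ceil_lt_add_one _).le
  have hes : ((∑ i, e i : ℤ) : ℝ) ≤ C0 + 3 := by
    rw [Fin.sum_univ_three] at hdC
    push_cast
    rw [Fin.sum_univ_three]
    have h0 := hed 0
    have h1 := hed 1
    have h2 := hed 2
    linarith
  have hemono : Monotone e := fun i j hij => by
    rw [he]
    exact Int.ceil_mono (hd hij)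
  obtain ⟨hGB, hdB⟩ := hEBN K (gr 0 3 (fk K f) α) E G' gi d e 1 zero_le_one hde hMG
    (fun σ => (hgi σ).1) (fun σ => (hgi σ).2.1) hEO
  obtain ⟨hSB, -⟩ := hEBN K (gr 1 3 (fk K f) α) E S' gi d e (2 * Y) (by positivity) hde hMS
    (fun σ => (hgi σ).1) (fun σ => (hgi σ).2.2.2) hEO
  have hGO : ∀ i j, G' i j ∈ Bx K (B * Real.exp ((e i + e j : ℤ) : ℝ)) := fun i j =>
    Bx_mono (mul_le_mul_of_nonneg_right (by linarith) (Real.exp_nonneg _)) (hGB i j)
  have hSO : ∀ i j, S' i j ∈ Bx K (B * Real.exp ((e i + e j : ℤ) : ℝ) * Y) := fun i j => by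
    refine Bx_mono ?_ (hSB i j)
    have h1 : 9 * (2 * (Y : ℝ)) * Real.exp ((e i + e j : ℤ) : ℝ) =
        18 * Real.exp ((e i + e j : ℤ) : ℝ) * Y := by ring
    rw [h1]
    exact mul_le_mul_of_nonneg_right (mul_le_mul_of_nonneg_right hB2 (Real.exp_nonneg _))
      (Nat.cast_nonneg _)
  -- the determinant
  have hGam : (gr 0 3 (fk K f) α).det ≠ 0 := fun h0 => by
    obtain ⟨σ⟩ : Nonempty (K →+* ℂ) := inferInstance
    have h1 := (hgi σ).2.2.1
    rw [Matrix.det_mul, Matrix.det_mul] at h1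
    have h2 : ((gr 0 3 (fk K f) α).map σ).det = 0 := by
      have h3 : ((gr 0 3 (fk K f) α).map σ).det = σ (gr 0 3 (fk K f) α).det := by
        rw [RingHom.map_det]
        rfl
      rw [h3, h0, map_zero]
    rw [h2, mul_zero, zero_mul, norm_zero] at h1
    norm_num at h1
  have hKd : (G'.map (algebraMap (𝓞 K) K)).det ≠ 0 := by
    rw [← hMG, Matrix.det_mul, Matrix.det_mul, Matrix.det_transpose]
    exact mul_ne_zero (mul_ne_zero hE hGam) hE
  have hGd : G'.det ≠ 0 := fun h0 => hKd (by rw [hdet, h0, map_zero])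
  have hdetT : ∀ P ∈ D.T, G'.det ∉ P.asIdeal := fun P hP hmem => by
    have h1 := ((hNRM K G'.det _ hdB).2 hGd).2 P.asIdeal hmem
    have h2 := hT P hP
    have h3 : (6 * (9 * 1) ^ 3 * Real.exp ((2 * ∑ i, e i : ℤ) : ℝ)) ^ dg K ≤
        (6 * (9 * 1) ^ 3 * Real.exp (2 * (C0 + 3))) ^ dg K := by
      refine pow_le_pow_left₀ (by positivity) (mul_le_mul_of_nonneg_left
        (Real.exp_le_exp.2 ?_) (by norm_num)) _
      push_cast at hes ⊢
      linarith
    have h4 : ((Ni P.asIdeal : ℕ) : ℝ) = (Nm P : ℝ) := rfl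
    rw [h4] at h1
    linarith
  have hfm : (fk K f).Monic := hm.map _
  have hfd : (fk K f).natDegree = 3 := by rw [hm.natDegree_map, hdeg]
  have hrep : Rep 3 (fk K f) α (G'.map (algebraMap (𝓞 K) K)) (S'.map (algebraMap (𝓞 K) K)) := by
    rw [← hMG, ← hMS]
    exact Pool.HYP.H2.rep_comb _ _ _
  refine ⟨e, G', S', hemono, hes.trans hB1, hGt, hSt, hGO, hSO, hGd, ?_, fun P hP => ?_,
    fun hz => ?_⟩
  · have h3 := Pool.HYP.chp K 3 (fk K f) α (G'.map (algebraMap (𝓞 K) K))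
      (S'.map (algebraMap (𝓞 K) K)) hfm hfd hrep hKd
    have h4 : pen (G'.map (algebraMap (𝓞 K) K)) (S'.map (algebraMap (𝓞 K) K)) =
        (Polynomial.mapRingHom (algebraMap (𝓞 K) K)).mapMatrix (pen G' S') := by
      refine Matrix.ext fun i j => ?_
      show X * C ((algebraMap (𝓞 K) K) (G' i j)) - C ((algebraMap (𝓞 K) K) (S' i j))
        = Polynomial.map (algebraMap (𝓞 K) K) (X * C (G' i j) - C (S' i j))
      rw [Polynomial.map_sub, Polynomial.map_mul, Polynomial.map_X, Polynomial.map_C,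
        Polynomial.map_C]
    rw [h4, ← RingHom.map_det, hdet] at h3
    refine Polynomial.map_injective _ hinj ?_
    rw [Polynomial.map_mul, Polynomial.map_C]
    exact h3
  · exact hΛT P hP E G' S' hEΛ (hdetT P hP) hMG hMS
  · refine hns (Pool.HYP.dist K 1 (fk K f) α (G'.map (algebraMap (𝓞 K) K))
      (S'.map (algebraMap (𝓞 K) K)) le_rfl hfm hfd hirr hN hKd hrep fun i j hi hj => ?_)
    have hi0 : i = 0 := Fin.ext (by simpa using hi)
    have hj0 : j = 0 := Fin.ext (by simpa using hj)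
    obtain ⟨h3, h4⟩ := hz
    subst hi0
    subst hj0
    constructor
    · show algebraMap (𝓞 K) K (G' 0 0) = 0
      rw [h3, map_zero]
    · show algebraMap (𝓞 K) K (S' 0 0) = 0
      rw [h4, map_zero]

end Pool.NF
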