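import Pool.Agent.H90.NF.NPT
import Pool.Agent.H50.NF.Cnt

/-!
# NF: row NPM, the number of the pairs in large boxes
-/

set_option autoImplicit false

namespace Pool.NF

open Real Matrix NumberField IsDedekindDomain Pool.T1 Pool.HYP

theorem Ni_eq_absNorm {K : Type} [Field K] [NumberField K] (I : Ideal (𝓞 K)) :
    Ni I = Ideal.absNorm I := by
  rw [Ni, Ideal.absNorm_apply, Submodule.cardQuot_apply]

theorem Ni_prod {K : Type} [Field K] [NumberField K] (T : Finset (HeightOneSpectrum (𝓞 K))) :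
    Ni (∏ P ∈ T, P.asIdeal) = ∏ P ∈ T, Ni P.asIdeal := by
  simp only [Ni_eq_absNorm]
  exact map_prod _ _ _

theorem npm (h : BXUStmt) : NPMStmt := by
  intro K _ _ C hC
  obtain ⟨a, ha, hb⟩ := h K
  set n := dg K with hn
  refine ⟨2 * ((a ^ 6 * ((1 + (C * exp (4 * C)) ^ n) ^ 4 * (2 * (C * exp C) ^ n) *
        (2 * (C * exp (3 * C)) ^ n))) * ((2 * a) ^ 6 * (C ^ 6 * exp (4 * C)) ^ n)),
        by positivity, ?_⟩
  intro D d x hok hd hx h1
  have hC0 : 0 ≤ C := by linarith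
  have hx0 : 0 ≤ x := by linarith
  have htop := fun ρ hρ => hb ⊤ top_ne_bot 0 ρ hρ
  have e : ∀ ρ : ℝ, {x ∈ Bx K ρ | x - 0 ∈ (⊤ : Ideal (𝓞 K))} = Bx K ρ := by
    intro ρ; ext x; simp
  simp only [e, Ni_top, Nat.cast_one, div_one] at htop
  have hPne : ∀ P : HeightOneSpectrum (𝓞 K), P.asIdeal ≠ ⊥ := fun P => P.ne_bot
  have hI : (∏ P ∈ D.T, P.asIdeal) ≠ ⊥ := by
    intro h0
    rw [← Ideal.zero_eq_bot] at h0
    obtain ⟨P, -, hP⟩ := Finset.prod_eq_zero_iff.1 h0
    exact hPne P hP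
  have hF : ∀ P : HeightOneSpectrum (𝓞 K), Finite (𝓞 K ⧸ P.asIdeal) := fun P =>
    Ideal.finiteQuotientOfFreeOfNeBot _ (hPne P)
  have hNpos : 0 < D.N := by
    refine Finset.prod_pos fun P _ => ?_
    have := hF P
    have : Nontrivial (𝓞 K ⧸ P.asIdeal) := Ideal.Quotient.nontrivial_iff.2 P.isPrime.ne_top
    exact Nat.card_pos
  have hNI : Ni (∏ P ∈ D.T, P.asIdeal) = D.N := Ni_prod D.T
  have hmono : ∀ i j : Fin 3, C * x * exp (2 * d 0) ≤ C * x * exp (d i + d j) := by
    intro i j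
    refine mul_le_mul_of_nonneg_left (exp_le_exp.2 ?_) (by positivity)
    have h0i : d 0 ≤ d i := hd.1 (Fin.zero_le i)
    have h0j : d 0 ≤ d j := hd.1 (Fin.zero_le j)
    linarith
  have key := Cnt.pair_cnt (g := 1) le_rfl D.T hF
    (fun P hP h0 => (hok P hP).2.1 (by
      rw [← Ideal.Quotient.eq_zero_iff_mem, map_ofNat]; exact h0))
    D.c D.γ (fun P hP => (hok P hP).1) (fun P hP => (hok P hP).2.2)
    (fun i j => Bx K (C * exp (d i + d j))) (fun i j => Bx K (C * x * exp (d i + d j)))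
    (fun i j => (htop _ (by positivity)).1) (fun i j => (htop _ (by positivity)).1)
    (fun i j => a * (1 + (C * exp (d i + d j)) ^ n))
    (fun i j => 2 * a * (C * x * exp (d i + d j)) ^ n)
    (fun i j _ => (htop _ (by positivity)).2)
    (fun i j _ r => by
      have h2 := (hb _ hI r (C * x * exp (d i + d j)) (by positivity)).2
      rw [hNI] at h2
      have h3 : (∏ P ∈ D.T, Nm P) = D.N := rfl
      rw [h3]
      have hN0 : (0 : ℝ) < D.N := by exact_mod_cast hNpos
      have h4 : (D.N : ℝ) ≤ (C * x * exp (d i + d j)) ^ n :=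
        h1.trans (pow_le_pow_left₀ (by positivity) (hmono i j) n)
      calc _ ≤ a * (1 + (C * x * exp (d i + d j)) ^ n / D.N) * D.N :=
            mul_le_mul_of_nonneg_right h2 hN0.le
        _ = a * (D.N + (C * x * exp (d i + d j)) ^ n) := by field_simp
        _ ≤ a * ((C * x * exp (d i + d j)) ^ n + (C * x * exp (d i + d j)) ^ n) := by gcongr
        _ = _ := by ring)
    (PPn C x D d)
    (by
      rintro p ⟨p1, p2, p3, p4, p5⟩
      refine ⟨p1, p2, p3, p4, fun P hP => ?_⟩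
      have hγ := (hok P hP).1.1
      refine Cnt.mem_XP P.isPrime.ne_top ((Polynomial.monic_X_sub_C (D.c P)).mul hγ) ?_ (p5 P hP)
      intro i
      rw [sub_self, Polynomial.coeff_zero]
      exact Ideal.zero_mem _)
  have h5 := key.2
  have e1 : Cnt.prLe (fun i j : Fin (2 * 1 + 1) => a * (1 + (C * exp (d i + d j)) ^ n)) =
      (fun i j : Fin 3 => a * (1 + (C * exp (d i + d j)) ^ n)) 0 0 *
      (fun i j : Fin 3 => a * (1 + (C * exp (d i + d j)) ^ n)) 0 1 *
      (fun i j : Fin 3 => a * (1 + (C * exp (d i + d j)) ^ n)) 0 2 *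
      (fun i j : Fin 3 => a * (1 + (C * exp (d i + d j)) ^ n)) 1 1 *
      (fun i j : Fin 3 => a * (1 + (C * exp (d i + d j)) ^ n)) 1 2 *
      (fun i j : Fin 3 => a * (1 + (C * exp (d i + d j)) ^ n)) 2 2 := by
    simp [Cnt.prLe, Fin.prod_univ_three, mul_assoc]
  have e2 : Cnt.prLe (fun i j : Fin (2 * 1 + 1) => 2 * a * (C * x * exp (d i + d j)) ^ n) =
      (fun i j : Fin 3 => 2 * a * (C * x * exp (d i + d j)) ^ n) 0 0 *
      (fun i j : Fin 3 => 2 * a * (C * x * exp (d i + d j)) ^ n) 0 1 *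
      (fun i j : Fin 3 => 2 * a * (C * x * exp (d i + d j)) ^ n) 0 2 *
      (fun i j : Fin 3 => 2 * a * (C * x * exp (d i + d j)) ^ n) 1 1 *
      (fun i j : Fin 3 => 2 * a * (C * x * exp (d i + d j)) ^ n) 1 2 *
      (fun i j : Fin 3 => 2 * a * (C * x * exp (d i + d j)) ^ n) 2 2 := by
    simp [Cnt.prLe, Fin.prod_univ_three, mul_assoc]
  rw [e1, e2] at h5
  have c2 := est_G n C hC d hd (fun i j => a * (1 + (C * exp (d i + d j)) ^ n))
    (fun i j => by positivity) a ha.le (fun i j => le_rfl)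
  have c3 := est_S n C x hC hx0 d hd (fun i j => 2 * a * (C * x * exp (d i + d j)) ^ n)
    (fun i j => by positivity) (2 * a) (by positivity) (fun i j => le_rfl)
  refine h5.trans ?_
  calc _ ≤ 2 * (_ * _) := mul_le_mul_of_nonneg_left (mul_le_mul c2 c3 (by positivity)
        (by positivity)) zero_le_two
    _ = _ := by ring

end Pool.NF
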