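import Pool.Agent.H90.NF.Est

/-!
# NF: row NPT, the trivial bound for the number of the pairs
-/

set_option autoImplicit false

namespace Pool.NF

open Real Matrix NumberField

/-- Symmetric `3 × 3` matrices with entries in finite sets. -/
theorem sym3 {R : Type*} (A : Fin 3 → Fin 3 → Set R) (hA : ∀ i j, (A i j).Finite) :
    {G : Matrix (Fin 3) (Fin 3) R | Gᵀ = G ∧ ∀ i j, G i j ∈ A i j}.Finite ∧
    {G : Matrix (Fin 3) (Fin 3) R | Gᵀ = G ∧ ∀ i j, G i j ∈ A i j}.ncard ≤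
      (A 0 0).ncard * (A 0 1).ncard * (A 0 2).ncard * (A 1 1).ncard * (A 1 2).ncard *
        (A 2 2).ncard := by
  set T : Set (((((R × R) × R) × R) × R) × R) :=
    ((((A 0 0 ×ˢ A 0 1) ×ˢ A 0 2) ×ˢ A 1 1) ×ˢ A 1 2) ×ˢ A 2 2 with hT
  have hTf : T.Finite :=
    (((((hA 0 0).prod (hA 0 1)).prod (hA 0 2)).prod (hA 1 1)).prod (hA 1 2)).prod (hA 2 2)
  set g : Matrix (Fin 3) (Fin 3) R → (((((R × R) × R) × R) × R) × R) :=
    fun G => (((((G 0 0, G 0 1), G 0 2), G 1 1), G 1 2), G 2 2) with hg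
  set S := {G : Matrix (Fin 3) (Fin 3) R | Gᵀ = G ∧ ∀ i j, G i j ∈ A i j} with hS
  have hmap : ∀ G ∈ S, g G ∈ T := by
    rintro G ⟨-, h2⟩
    simp only [hT, hg, Set.mem_prod]
    exact ⟨⟨⟨⟨⟨h2 0 0, h2 0 1⟩, h2 0 2⟩, h2 1 1⟩, h2 1 2⟩, h2 2 2⟩
  have hinj : Set.InjOn g S := by
    rintro G ⟨h1, -⟩ G' ⟨h1', -⟩ h
    simp only [hg, Prod.mk.injEq] at h
    obtain ⟨⟨⟨⟨⟨a, b⟩, c⟩, d⟩, e⟩, f⟩ := h
    have s : ∀ i j, G i j = G j i := fun i j => by
      conv_lhs => rw [← h1]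
      rfl
    have s' : ∀ i j, G' i j = G' j i := fun i j => by
      conv_lhs => rw [← h1']
      rfl
    ext i j
    fin_cases i <;> fin_cases j
    · exact a
    · exact b
    · exact c
    · exact (s 1 0).trans (b.trans (s' 0 1))
    · exact d
    · exact e
    · exact (s 2 0).trans (c.trans (s' 0 2))
    · exact (s 2 1).trans (e.trans (s' 1 2))
    · exact f
  have hfin : S.Finite := Set.Finite.of_injOn hmap hinj hTf
  refine ⟨hfin, ?_⟩
  have := Set.ncard_le_ncard_of_injOn g hmap hinj hTf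
  refine this.trans (le_of_eq ?_)
  simp only [hT, Set.ncard_prod]

theorem Ni_top {K : Type} [Field K] [NumberField K] : Ni (⊤ : Ideal (𝓞 K)) = 1 := by
  unfold Ni
  have : Subsingleton (𝓞 K ⧸ (⊤ : Ideal (𝓞 K))) :=
    Ideal.Quotient.subsingleton_iff.2 rfl
  have : Nonempty (𝓞 K ⧸ (⊤ : Ideal (𝓞 K))) := ⟨0⟩
  exact Nat.card_of_subsingleton 0

/-- The number of the elements of a box. -/
theorem bx_card (h : BXUStmt) (K : Type) [Field K] [NumberField K] : ∃ C : ℝ, 0 < C ∧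
    ∀ ρ : ℝ, 0 ≤ ρ → (Bx K ρ).Finite ∧ ((Bx K ρ).ncard : ℝ) ≤ C * (1 + ρ ^ dg K) := by
  obtain ⟨C, hC, h⟩ := h K
  refine ⟨C, hC, fun ρ hρ => ?_⟩
  have := h ⊤ top_ne_bot 0 ρ hρ
  have e : {x ∈ Bx K ρ | x - 0 ∈ (⊤ : Ideal (𝓞 K))} = Bx K ρ := by
    ext x; simp
  rw [e, Ni_top] at this
  simpa using this

theorem npt (h : BXUStmt) : NPTStmt := by
  intro K _ _ C hC
  obtain ⟨a, ha, hb⟩ := bx_card h K
  set n := dg K with hn
  refine ⟨(a ^ 6 * ((1 + (C * exp (4 * C)) ^ n) ^ 4 * (2 * (C * exp C) ^ n) *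
        (2 * (C * exp (3 * C)) ^ n))) * ((2 * a) ^ 6 * (C ^ 6 * exp (4 * C)) ^ n),
        by positivity, ?_⟩
  intro D d x hd hx h1
  have hC0 : 0 ≤ C := by linarith
  have hx0 : 0 ≤ x := by linarith
  set A : Fin 3 → Fin 3 → Set (𝓞 K) := fun i j => Bx K (C * exp (d i + d j)) with hA
  set B : Fin 3 → Fin 3 → Set (𝓞 K) := fun i j => Bx K (C * x * exp (d i + d j)) with hB
  have hAf : ∀ i j, (A i j).Finite := fun i j => (hb _ (by positivity)).1
  have hBf : ∀ i j, (B i j).Finite := fun i j => (hb _ (by positivity)).1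
  obtain ⟨fA, cA⟩ := sym3 A hAf
  obtain ⟨fB, cB⟩ := sym3 B hBf
  set SA := {G : Matrix (Fin 3) (Fin 3) (𝓞 K) | Gᵀ = G ∧ ∀ i j, G i j ∈ A i j}
  set SB := {G : Matrix (Fin 3) (Fin 3) (𝓞 K) | Gᵀ = G ∧ ∀ i j, G i j ∈ B i j}
  have hsub : PPn C x D d ⊆ SA ×ˢ SB := by
    rintro p ⟨h1, h2, h3, h4, -⟩
    exact ⟨⟨h1, h3⟩, ⟨h2, h4⟩⟩
  have hfin : (PPn C x D d).Finite := (fA.prod fB).subset hsub
  refine ⟨hfin, ?_⟩
  have c1 : ((PPn C x D d).ncard : ℝ) ≤ (SA.ncard : ℝ) * SB.ncard := by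
    have := Set.ncard_le_ncard hsub (fA.prod fB)
    rw [Set.ncard_prod] at this
    exact_mod_cast this
  have c2 : (SA.ncard : ℝ) ≤ (a ^ 6 * ((1 + (C * exp (4 * C)) ^ n) ^ 4 * (2 * (C * exp C) ^ n) *
        (2 * (C * exp (3 * C)) ^ n))) * exp (-(3 * n) * d 0) := by
    have := est_G n C hC d hd (fun i j => ((A i j).ncard : ℝ)) (fun i j => by positivity) a ha.le
      (fun i j => (hb _ (by positivity)).2)
    refine le_trans ?_ this
    exact_mod_cast cA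
  have hmono : ∀ i j : Fin 3, 1 ≤ C * x * exp (d i + d j) := by
    intro i j
    refine h1.trans (mul_le_mul_of_nonneg_left (exp_le_exp.2 ?_) (by positivity))
    have h0i : d 0 ≤ d i := hd.1 (Fin.zero_le i)
    have h0j : d 0 ≤ d j := hd.1 (Fin.zero_le j)
    linarith
  have c3 : (SB.ncard : ℝ) ≤ ((2 * a) ^ 6 * (C ^ 6 * exp (4 * C)) ^ n) * x ^ (6 * n) := by
    have := est_S n C x hC hx0 d hd (fun i j => ((B i j).ncard : ℝ)) (fun i j => by positivity)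
      (2 * a) (by positivity) (fun i j => by
        refine (hb _ (by positivity)).2.trans ?_
        have : 1 ≤ (C * x * exp (d i + d j)) ^ n := one_le_pow₀ (hmono i j)
        nlinarith)
    refine le_trans ?_ this
    exact_mod_cast cB
  calc ((PPn C x D d).ncard : ℝ) ≤ (SA.ncard : ℝ) * SB.ncard := c1
    _ ≤ _ := mul_le_mul c2 c3 (by positivity) (by positivity)
    _ = _ := by ring

end Pool.NF
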