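import Pool.Agent.H14.NF.Base
import Pool.Agent.H90.T1.ONEK

/-!
# NF: a twist with trivial Selmer group, main step
-/

set_option autoImplicit false

namespace Pool.NF

open Polynomial Matrix NumberField IsDedekindDomain Pool.HYP Pool.TOW Pool.AVS Pool.T1

namespace ONEN90

variable {K : Type} [Field K] [NumberField K]

/-- The main step, with given completions. -/
theorem core (hLINB : LINBStmt) (hINO : INOKStmt) (hLDA : LDAKStmt)
    (hLDB : LDBKStmt) (hUSM : USMKStmt)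
    {Ram : Finset (HeightOneSpectrum (𝓞 K))} (hRec : RecN Ram)
    (D : DatN K) (Y : ℕ) (hok : D.Ok) (hY : 1 ≤ Y) (hRam : Ram ⊆ D.T') (f : (𝓞 K)[X])
    (hf : f ∈ FamN D Y) (hsm : Smooth f) (hbad : ¬ Bad K D.T f)
    (hIRU : ∀ P ∈ D.T', ∀ α : K[X], IsCoprime α (fk K f) → NSq (fk K f) α → US P.asIdeal f α)
    (hMUL : ∀ α β : K[X], IsCoprime α (fk K f) → NSq (fk K f) α → IsCoprime β (fk K f) →
      NSq (fk K f) β → Loc2 f α → Loc2 f β → Loc2 f (α * β))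
    (hISO : ∀ α : K[X], IsCoprime α (fk K f) → NSq (fk K f) α → Loc2 f α → Dya f α)
    (ϖ : HeightOneSpectrum (𝓞 K) → 𝓞 K)
    (L : HeightOneSpectrum (𝓞 K) → Type) [∀ P, Field (L P)] (O' : ∀ P, ValuationSubring (L P))
    (ι : ∀ P, K →+* L P)
    (hC : ∀ P : HeightOneSpectrum (𝓞 K), (2 : 𝓞 K) ∉ P.asIdeal → CompP P (ϖ P) (L P) (O' P) (ι P)) :
    ∃ S ⊆ D.T, ∀ d : 𝓞 K, Twi D.T D.T' S d → ∀ α : K[X], IsCoprime α (fk K f) →
      NSq (fk K f) α → (¬ ∃ s, fk K f ∣ α - s ^ 2) →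
      (∀ P : HeightOneSpectrum (𝓞 K), (2 : 𝓞 K) ∉ P.asIdeal → LSDK (ι P) d f α) →
      Loc2 f α → False := by
  classical
  have hTYM : TYMStmt := tym unr nmu
  have hTY0 : TY0Stmt := ty0_of unr
  have hTYU : TYUStmt := tyu unr nmu
  have hCLA : CLAStmt := cla unr
  have hfm : f.Monic := hf.1
  have hfn : f.natDegree = 2 * 1 + 1 := hf.2.1
  have hfK : (fk K f).Monic := hfm.map _
  have hg : 1 ≤ 1 := le_rfl
  have h2T : ∀ P ∈ D.T, (2 : 𝓞 K) ∉ P.asIdeal := fun P hP h2 =>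
    Finset.disjoint_left.1 hok.1 hP (hok.2.2.2 P (Or.inl h2))
  -- the local data
  have hloc : ∀ P, ∃ (c : O' P) (γ : (O' P)[X]), P ∈ D.T → OkL (O' P) 1 γ ∧
      (fk K f).map (ι P) = oL (O' P) ((X - C c) * γ) ∧
      (∀ h : K[X], IsCoprime h (fk K f) →
        (USL (O' P) ((X - C c) * γ) (h.map (ι P)) ↔ US P.asIdeal f h)) ∧
      (∀ h : K[X], IsCoprime h (fk K f) → TRL (O' P) ((X - C c) * γ) (h.map (ι P)) →
        TR P.asIdeal f h) := by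
    intro P
    by_cases hP : P ∈ D.T
    · obtain ⟨c, γ, h1⟩ := ONEK90.locdata hINO (hC P (h2T P hP)) hg (hok.2.1 P hP) hfm
        (hf.2.2.2.1 P hP)
      exact ⟨c, γ, fun _ => h1⟩
    · exact ⟨0, 0, fun h => absurd h hP⟩
  choose c γ hdat using hloc
  have hcop : ∀ P ∈ D.T, ∀ α : K[X], IsCoprime α (fk K f) →
      IsCoprime (α.map (ι P)) (oL (O' P) ((X - C (c P)) * γ P)) := by
    intro P hP α hα
    rw [← (hdat P hP).2.1]
    exact One86.cop_map (ι P) hα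
  have hnsq : ∀ P ∈ D.T, ∀ α : K[X], NSq (fk K f) α →
      NSq (oL (O' P) ((X - C (c P)) * γ P)) (α.map (ι P)) := by
    intro P hP α hα
    rw [← (hdat P hP).2.1]
    exact One86.nsq_map (ι P) hfK hα
  -- the set of vectors of types
  set W : Set (HeightOneSpectrum (𝓞 K) → Ty) := {x | ∃ α : K[X],
    IsCoprime α (fk K f) ∧ NSq (fk K f) α ∧
    (∀ P : HeightOneSpectrum (𝓞 K), P ∉ D.T → US P.asIdeal f α) ∧ Loc2 f α ∧
    ∀ P ∈ D.T, TyL (O' P) (ι P (algebraMap (𝓞 K) K (ϖ P))) (c P) (γ P) (x P)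
      (α.map (ι P))} with hW
  have hadd : ∀ x ∈ W, ∀ y ∈ W, x + y ∈ W := by
    rintro x ⟨α, hα, hNα, hUα, hLα, hTα⟩ y ⟨β, hβ, hNβ, hUβ, hLβ, hTβ⟩
    refine ⟨α * β, hα.mul_left hβ, One86.nsq_mul hNα hNβ, fun P h1 =>
      hUSM (𝓞 K) K P.asIdeal f α β (hUα P h1) (hUβ P h1),
      hMUL α β hα hNα hβ hNβ hLα hLβ, fun P hP => ?_⟩
    rw [Polynomial.map_mul]
    exact hTYM _ _ _ (hC P (h2T P hP)).loc 1 (c P) (γ P) hg (hdat P hP).1 _ _ (x P) (y P)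
      (hcop P hP α hα) (hcop P hP β hβ) (hnsq P hP α hNα) (hnsq P hP β hNβ) (hTα P hP) (hTβ P hP)
  have hiso : ∀ x ∈ W, ∀ y ∈ W, ∑ P ∈ D.T, ((x P).1 * (y P).2 + (x P).2 * (y P).1) = 0 := by
    rintro x ⟨α, hα, hNα, hUα, hLα, hTα⟩ y ⟨β, hβ, hNβ, hUβ, hLβ, hTβ⟩
    refine hRec D Y hok hY hRam f hf ϖ L O' ι (fun P hP => hC P (h2T P hP)) c γ
      (fun P hP => ⟨(hdat P hP).1, (hdat P hP).2.1⟩) α β x y ?_ ?_ hTα hTβ
    · intro δ hδ
      rcases hδ with hδ | hδ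
      · rw [hδ]
        exact ⟨hα, hNα, hUα⟩
      · rw [Set.mem_singleton_iff.1 hδ]
        exact ⟨hβ, hNβ, hUβ⟩
    · intro δ hδ
      rcases hδ with hδ | hδ | hδ
      · rw [hδ]
        exact hISO α hα hNα hLα
      · rw [hδ]
        exact hISO β hβ hNβ hLβ
      · rw [Set.mem_singleton_iff.1 hδ]
        exact hISO (α * β) (hα.mul_left hβ) (One86.nsq_mul hNα hNβ)
          (hMUL α β hα hNα hβ hNβ hLα hLβ)
  obtain ⟨S, hST, hS⟩ := hLINB (HeightOneSpectrum (𝓞 K)) D.T W hadd hiso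
  refine ⟨S, hST, ?_⟩
  intro d hd α hα hNα hns hLSP hL2
  obtain ⟨hd0, hdS, hdT, hdO⟩ := hd
  -- classes of units outside `S`
  have hUS1 : ∀ P : HeightOneSpectrum (𝓞 K), P ∉ S → US P.asIdeal f α := by
    intro P hPS
    by_cases hPT : P ∈ D.T
    · exact hLDA (𝓞 K) K P (ϖ P) (L P) (O' P) (ι P) (hC P (h2T P hPT)) 1 f d α hfm hfn (hsm P)
        (hdT P hPT hPS) hα hNα (hLSP P (h2T P hPT))
    · by_cases hPT' : P ∈ D.T'
      · exact hIRU P hPT' α hα hNα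
      · have h2P : (2 : 𝓞 K) ∉ P.asIdeal := fun h2 => hPT' (hok.2.2.2 P (Or.inl h2))
        exact hLDA (𝓞 K) K P (ϖ P) (L P) (O' P) (ι P) (hC P h2P) 1 f d α hfm hfn (hsm P)
          (hdO P hPT hPT') hα hNα (hLSP P h2P)
  have hty : ∀ P, ∃ x : Ty, P ∈ D.T →
      TyL (O' P) (ι P (algebraMap (𝓞 K) K (ϖ P))) (c P) (γ P) x (α.map (ι P)) := by
    intro P
    by_cases hP : P ∈ D.T
    · obtain ⟨x, hx⟩ := hCLA _ _ _ (hC P (h2T P hP)).loc 1 (c P) (γ P) hg (hdat P hP).1 _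
        (hcop P hP α hα)
      exact ⟨x, fun _ => hx⟩
    · exact ⟨0, fun h => absurd h hP⟩
  choose x hx using hty
  have hxW : x ∈ W := ⟨α, hα, hNα, fun P hP => hUS1 P fun h1 => hP (hST h1), hL2, hx⟩
  have hx0 : ∀ P ∈ D.T, x P = 0 := by
    refine hS x hxW (fun P hP => ?_) fun P hP hPS => ?_
    · have h2P := h2T P (hST hP)
      exact hLDB (𝓞 K) K P (ϖ P) (L P) (O' P) (ι P) (hC P h2P) 1 f d α (c P) (γ P) (x P) hg hfm
        hfn (hdat P (hST hP)).1 (hdat P (hST hP)).2.1 (hdS P hP).1 (hdS P hP).2 hα hNα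
        (hLSP P h2P) (hx P (hST hP))
    · exact (hTYU _ _ _ (hC P (h2T P hP)).loc 1 (c P) (γ P) hg (hdat P hP).1 _ (x P)
        (hcop P hP α hα) (hnsq P hP α hNα) (hx P hP)).1
        (((hdat P hP).2.2.1 α hα).2 (hUS1 P hPS))
  refine hbad ⟨α, hα, hNα, hns, fun P => ?_, fun P hP => ?_⟩
  · by_cases hPT : P ∈ D.T
    · refine ((hdat P hPT).2.2.1 α hα).1 ?_
      refine (hTYU _ _ _ (hC P (h2T P hPT)).loc 1 (c P) (γ P) hg (hdat P hPT).1 _ (x P)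
        (hcop P hPT α hα) (hnsq P hPT α hNα) (hx P hPT)).2 ?_
      rw [hx0 P hPT]
      rfl
    · exact hUS1 P fun h1 => hPT (hST h1)
  · refine (hdat P hP).2.2.2 α hα ?_
    refine hTY0 _ _ _ (hC P (h2T P hP)).loc 1 (c P) (γ P) hg (hdat P hP).1 _ (hcop P hP α hα)
      (hnsq P hP α hNα) ?_
    have := hx P hP
    rw [hx0 P hP] at this
    exact this

end ONEN90

end Pool.NF
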