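import Pool.Agent.H46.NF.L
import Pool.Agent.H90.NF.OneCore

/-!
# NF, row ONEN: a twist with trivial Selmer group
-/

set_option autoImplicit false

namespace Pool.NF

open Polynomial Matrix NumberField IsDedekindDomain Pool.HYP Pool.TOW Pool.AVS Pool.T1

theorem onen (hCMP : CMPNStmt) (hIRU : IRUNStmt) (hL2M : L2MStmt) (hL2D : L2DStmt)
    (hL2T : L2TStmt) (hLINB : LINBStmt) (hINO : INOKStmt) (hLDA : LDAKStmt) (hLDB : LDBKStmt)
    (hTWS : TWSKStmt) (hUSM : USMKStmt) : ONENStmt := by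
  classical
  intro K _ _ Ram hRec D Y hok hY hRam f hf hsm hbad
  have hex : ∀ P : HeightOneSpectrum (𝓞 K), ∃ (ϖ : 𝓞 K) (L : Type) (_ : Field L)
      (O' : ValuationSubring L) (ι : K →+* L), (2 : 𝓞 K) ∉ P.asIdeal → CompP P ϖ L O' ι := by
    intro P
    by_cases h2 : (2 : 𝓞 K) ∈ P.asIdeal
    · exact ⟨0, K, inferInstance, ⊤, RingHom.id K, fun h => absurd h2 h⟩
    · obtain ⟨ϖ, L, F, O', ι, -, -, h⟩ := hCMP K P h2
      exact ⟨ϖ, L, F, O', ι, fun _ => h⟩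
  choose ϖ L hF O' ι hC using hex
  obtain ⟨S, hS, hcore⟩ := ONEN90.core hLINB hINO hLDA hLDB hUSM hRec D Y hok hY hRam f hf hsm hbad
    (fun P hP α hα hNα => hIRU K P 1 f (D.ρ P) α hf.1 hf.2.1 (hok.2.2.1 P hP)
      (hf.2.2.2.2 P hP) hα hNα)
    (fun α β _ _ _ _ h1 h2 => hL2M K D Y hok f hf α β h1 h2)
    (fun α _ _ h => hL2D K D Y hok f hf α h) ϖ L O' ι hC
  refine ⟨S, hS, fun d hd => ?_⟩
  by_contra hne
  obtain ⟨hd1, e, he⟩ := hd
  obtain ⟨α, hα, hNα, hns, hLS⟩ := hTWS (𝓞 K) K 1 f d hf.1 hf.2.1 hd1.1 hne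
  exact hcore d hd1 α hα hNα hns (fun P hP => hLS (L P) (O' P) (ι P) (hC P hP).cpl)
    (hL2T K f d e α hf.1 he hLS)

end Pool.NF
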