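import Pool.Agent.H41.NF.Cnt

/-!
# NF: real estimates for the rows NPM and NPT
-/

set_option autoImplicit false

namespace Pool.NF

open Real

/-- Elementary inequalities for the degrees. -/
theorem adn_ineq (C : ℝ) (hC : 1 ≤ C) (d : Fin 3 → ℝ) (h : Adn C d) :
    d 0 + d 0 ≤ 4 * C ∧ d 0 + d 1 ≤ 4 * C ∧ d 0 + d 2 ≤ 4 * C ∧ d 1 + d 1 ≤ 4 * C ∧
    d 1 + d 2 ≤ C - d 0 ∧ d 2 + d 2 ≤ 3 * C - 2 * d 0 ∧ 0 ≤ C - d 0 ∧ 0 ≤ 3 * C - 2 * d 0 := by
  obtain ⟨hm, hs, h02, h1⟩ := h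
  have h01 : d 0 ≤ d 1 := hm (by decide)
  have h12 : d 1 ≤ d 2 := hm (by decide)
  refine ⟨?_, ?_, ?_, ?_, ?_, ?_, ?_, ?_⟩ <;> linarith

/-- The six factors of the first matrix. -/
theorem est_G (n : ℕ) (C : ℝ) (hC : 1 ≤ C) (d : Fin 3 → ℝ) (h : Adn C d)
    (f : Fin 3 → Fin 3 → ℝ) (hf0 : ∀ i j, 0 ≤ f i j) (a : ℝ) (ha : 0 ≤ a)
    (hf : ∀ i j, f i j ≤ a * (1 + (C * exp (d i + d j)) ^ n)) :
    f 0 0 * f 0 1 * f 0 2 * f 1 1 * f 1 2 * f 2 2 ≤
      (a ^ 6 * ((1 + (C * exp (4 * C)) ^ n) ^ 4 * (2 * (C * exp C) ^ n) *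
        (2 * (C * exp (3 * C)) ^ n))) * exp (-(3 * n) * d 0) := by
  obtain ⟨h00, h01, h02, h11, h12, h22, g1, g2⟩ := adn_ineq C hC d h
  have hC0 : 0 ≤ C := by linarith
  have key : ∀ i j : Fin 3, d i + d j ≤ 4 * C → f i j ≤ a * (1 + (C * exp (4 * C)) ^ n) := by
    intro i j hij
    refine (hf i j).trans ?_
    have : C * exp (d i + d j) ≤ C * exp (4 * C) :=
      mul_le_mul_of_nonneg_left (exp_le_exp.2 hij) hC0
    have h2 : (C * exp (d i + d j)) ^ n ≤ (C * exp (4 * C)) ^ n :=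
      pow_le_pow_left₀ (by positivity) this n
    exact mul_le_mul_of_nonneg_left (by linarith) ha
  have key2 : ∀ (s t : ℝ), s ≤ t → 0 ≤ t →
      1 + (C * exp s) ^ n ≤ 2 * (C * exp t) ^ n := by
    intro s t hst ht
    have h1 : (C * exp s) ^ n ≤ (C * exp t) ^ n :=
      pow_le_pow_left₀ (by positivity) (mul_le_mul_of_nonneg_left (exp_le_exp.2 hst) hC0) n
    have h2 : 1 ≤ (C * exp t) ^ n := by
      apply one_le_pow₀
      have : 1 ≤ exp t := one_le_exp ht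
      nlinarith
    linarith
  have k12 : f 1 2 ≤ a * (2 * (C * exp C) ^ n * exp (-(n * d 0))) := by
    refine (hf 1 2).trans (mul_le_mul_of_nonneg_left ((key2 _ _ h12 g1).trans (le_of_eq ?_)) ha)
    rw [show C * exp (C - d 0) = C * exp C * exp (-(d 0)) by
      rw [mul_assoc, ← exp_add]; ring_nf, mul_pow, ← exp_nat_mul]
    ring_nf
  have k22 : f 2 2 ≤ a * (2 * (C * exp (3 * C)) ^ n * exp (-(2 * n * d 0))) := by
    refine (hf 2 2).trans (mul_le_mul_of_nonneg_left ((key2 _ _ h22 g2).trans (le_of_eq ?_)) ha)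
    rw [show C * exp (3 * C - 2 * d 0) = C * exp (3 * C) * exp (-(2 * d 0)) by
      rw [mul_assoc, ← exp_add]; ring_nf, mul_pow, ← exp_nat_mul]
    ring_nf
  have e : exp (-(3 * n) * d 0) = exp (-(n * d 0)) * exp (-(2 * n * d 0)) := by
    rw [← exp_add]; ring_nf
  have k00 := key 0 0 h00
  have k01 := key 0 1 h01
  have k02 := key 0 2 h02
  have k11 := key 1 1 h11
  set A := a * (1 + (C * exp (4 * C)) ^ n)
  have hA : 0 ≤ A := (hf0 0 0).trans k00
  calc f 0 0 * f 0 1 * f 0 2 * f 1 1 * f 1 2 * f 2 2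
      ≤ A * A * A * A * (a * (2 * (C * exp C) ^ n * exp (-(n * d 0)))) *
        (a * (2 * (C * exp (3 * C)) ^ n * exp (-(2 * n * d 0)))) := by
        have := hf0 0 0
        have := hf0 0 1
        have := hf0 0 2
        have := hf0 1 1
        have := hf0 1 2
        have := hf0 2 2
        gcongr
    _ = _ := by
        rw [e]
        simp only [A]
        ring

/-- The six factors of the second matrix. -/
theorem est_S (n : ℕ) (C x : ℝ) (hC : 1 ≤ C) (hx : 0 ≤ x) (d : Fin 3 → ℝ) (h : Adn C d)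
    (f : Fin 3 → Fin 3 → ℝ) (hf0 : ∀ i j, 0 ≤ f i j) (a : ℝ) (ha : 0 ≤ a)
    (hf : ∀ i j, f i j ≤ a * (C * x * exp (d i + d j)) ^ n) :
    f 0 0 * f 0 1 * f 0 2 * f 1 1 * f 1 2 * f 2 2 ≤
      (a ^ 6 * (C ^ 6 * exp (4 * C)) ^ n) * x ^ (6 * n) := by
  obtain ⟨hm, hs, -, -⟩ := h
  have hC0 : 0 ≤ C := by linarith
  have hc1 : exp (4 * (d 0 + d 1 + d 2)) ≤ exp (4 * C) := exp_le_exp.2 (by linarith)
  calc f 0 0 * f 0 1 * f 0 2 * f 1 1 * f 1 2 * f 2 2
      ≤ (a * (C * x * exp (d 0 + d 0)) ^ n) * (a * (C * x * exp (d 0 + d 1)) ^ n) *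
        (a * (C * x * exp (d 0 + d 2)) ^ n) * (a * (C * x * exp (d 1 + d 1)) ^ n) *
        (a * (C * x * exp (d 1 + d 2)) ^ n) * (a * (C * x * exp (d 2 + d 2)) ^ n) := by
        have := hf0 0 0
        have := hf0 0 1
        have := hf0 0 2
        have := hf0 1 1
        have := hf0 1 2
        have := hf0 2 2
        have := hf 0 0
        have := hf 0 1
        have := hf 0 2
        have := hf 1 1
        have := hf 1 2
        have := hf 2 2
        gcongr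
    _ = a ^ 6 * (C ^ 6 * exp (4 * (d 0 + d 1 + d 2))) ^ n * x ^ (6 * n) := by
        have : exp (4 * (d 0 + d 1 + d 2)) = exp (d 0 + d 0) * exp (d 0 + d 1) *
            exp (d 0 + d 2) * exp (d 1 + d 1) * exp (d 1 + d 2) * exp (d 2 + d 2) := by
          rw [← exp_add, ← exp_add, ← exp_add, ← exp_add, ← exp_add]; ring_nf
        rw [this]
        rw [show x ^ (6 * n) = (x ^ 6) ^ n by rw [pow_mul]]
        simp only [mul_pow]
        ring
    _ ≤ _ := by gcongr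

end Pool.NF
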